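import Pool.Agent.Lib.helper21.NS
set_option linter.style.longLine false
namespace Pool.Agent.H.MP_c1fc37_lc
open Set Cardinal Order Function

variable {X : Type} [LinearOrder X]

/-- a node of `2^{<κ}`: a length and the set of places below it carrying `1` -/
def Nd (X : Type) [LinearOrder X] : Type := {p : X × Set X // p.2 ⊆ Iio p.1}

/-- initial segment -/
def Le (s t : Nd X) : Prop := s.1.1 ≤ t.1.1 ∧ s.1.2 = t.1.2 ∩ Iio s.1.1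

def cone (T : Set (Nd X)) (t : Nd X) : Set (Nd X) := {s ∈ T | Le s t ∨ Le t s}

/-- `<κ`-closed -/
def Clo (P : Set (Set (Nd X))) : Prop :=
  ∀ (δ : X) (S : Iio δ → Set (Nd X)), (∀ i, S i ∈ P) → Antitone S → ∃ T ∈ P, ∀ i, T ⊆ S i

/-- `κ⁺`-cc -/
def CC (P : Set (Set (Nd X))) : Prop :=
  ∀ A ⊆ P, (A.Pairwise fun S T => ¬ ∃ R ∈ P, R ⊆ S ∧ R ⊆ T) → #A ≤ #X

/-- `N α R ξ` reads: `R` forces `x(α) = ξ` -/
def Name (P : Set (Set (Nd X))) (N : X → Set (Nd X) → X → Prop) : Prop :=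
  (∀ α ξ, ∀ R ∈ P, ∀ S ∈ P, S ⊆ R → N α R ξ → N α S ξ) ∧ (∀ α ξ ζ, ∀ R ∈ P, N α R ξ → N α R ζ → ξ = ζ) ∧
    ∀ α, ∀ T ∈ P, ∃ R ∈ P, R ⊆ T ∧ ∃ ξ, N α R ξ

/-- `κ^κ`-bounding -/
def Bnd (P : Set (Set (Nd X))) : Prop :=
  ∀ N, Name P N → ∀ T ∈ P, ∃ S ∈ P, S ⊆ T ∧ ∃ z : X → X, ∀ α ξ, ∀ R ∈ P, R ⊆ S → N α R ξ → ξ < z α

variable [SuccOrder X]

/-- `t ⌢ i` -/
def ch [NoMaxOrder X] (t : Nd X) (i : Prop) : Nd X :=
  ⟨(succ t.1.1, t.1.2 ∪ {x | x = t.1.1 ∧ i}), by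
    rintro x (h | ⟨rfl, -⟩)
    exacts [(t.2 h).trans (lt_succ _), lt_succ _]⟩

variable [NoMaxOrder X]

def Spl (T : Set (Nd X)) (t : Nd X) : Prop := ch t False ∈ T ∧ ch t True ∈ T

/-- tree forcing -/
def TF (P : Set (Set (Nd X))) : Prop := P.Nonempty ∧ ∀ T ∈ P, T.Nonempty ∧ (∀ t ∈ T, ∀ s, Le s t → s ∈ T) ∧
  (∀ t ∈ T, ∃ u ∈ T, Le t u ∧ Spl T u) ∧ ∀ t ∈ T, cone T t ∈ P

lemma stem {T R : Set (Nd X)} {t w : Nd X} (h : R ⊆ cone T t) (s : Spl R w) : Le t w := by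
  have k : ∀ i, ch w i ∈ R → w.1.1 < t.1.1 → (w.1.1 ∈ t.1.2 ↔ i) := fun i a l => by
    have n : w.1.1 ∉ w.1.2 := fun e => lt_irrefl _ (w.2 e)
    rcases (h a).2 with e | e
    · simpa [ch, n] using (Set.ext_iff.1 e.2 w.1.1).symm
    · simpa [ch, n, l] using Set.ext_iff.1 e.2 w.1.1
  have l : t.1.1 ≤ w.1.1 := not_lt.1 fun l => (k _ s.1 l).1 ((k _ s.2 l).2 trivial)
  rcases (h s.1).2 with e | e
  · exact absurd (succ_le_iff.1 e.1) l.not_gt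
  · exact ⟨l, by simpa [ch] using e.2⟩

lemma tree [WellFoundedLT X] {P : Set (Set (Nd X))} (h : TF P) (c : Clo P) {T : Set (Nd X)} (hT : T ∈ P) :
    ∃ (L : Set X → X → Set (Nd X)) (u : Set X → X → Nd X), (∀ b i, L b i ∈ P ∧ L b i ⊆ T ∧ u b i ∈ L b i ∧
      ∀ j < i, L b i ⊆ cone T (ch (u b j) (j ∈ b)) ∧ Le (ch (u b j) (j ∈ b)) (u b i)) ∧
      ∀ b b' i, b ∩ Iio i = b' ∩ Iio i → u b i = u b' i := by
  have : ∀ 𝒮 : Set (Set (Nd X)), ∃ q : Set (Nd X) × Nd X, (∃ R ∈ P, R ⊆ T ∧ ∀ S ∈ 𝒮, R ⊆ S) →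
      q.1 ∈ P ∧ q.1 ⊆ T ∧ (∀ S ∈ 𝒮, q.1 ⊆ S) ∧ q.2 ∈ q.1 ∧ Spl q.1 q.2 := fun 𝒮 => by
    by_cases e : ∃ R ∈ P, R ⊆ T ∧ ∀ S ∈ 𝒮, R ⊆ S
    · obtain ⟨R, a, b, d⟩ := e
      obtain ⟨t, ht⟩ := (h.2 R a).1
      obtain ⟨u, i, -, j⟩ := (h.2 R a).2.2.1 t ht
      exact ⟨(R, u), fun _ => ⟨a, b, d, i, j⟩⟩
    · exact ⟨(T, (h.2 T hT).1.some), fun k => absurd k e⟩
  choose q hq using this
  let G : Set X → X → Set (Nd X) := fun b => WellFoundedLT.fix fun i f =>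
    cone (q {S | ∃ j k, f j k = S}).1 (ch (q {S | ∃ j k, f j k = S}).2 (i ∈ b))
  let Q := fun b i => q {S | ∃ j, ∃ _ : j < i, G b j = S}
  have e : ∀ b i, G b i = cone (Q b i).1 (ch (Q b i).2 (i ∈ b)) := fun b i => WellFoundedLT.fix_eq _ i
  have A : ∀ b i, (Q b i).1 ∈ P ∧ (Q b i).1 ⊆ T ∧ (∀ S ∈ {S | ∃ j, ∃ _ : j < i, G b j = S}, (Q b i).1 ⊆ S) ∧
      (Q b i).2 ∈ (Q b i).1 ∧ Spl (Q b i).1 (Q b i).2 := fun b i => by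
    induction i using WellFoundedLT.induction with | ind i ih =>
    refine hq _ ?_
    rcases isEmpty_or_nonempty (Iio i) with x | ⟨⟨j⟩⟩
    · exact ⟨T, hT, subset_rfl, fun S ⟨j, k, _⟩ => x.elim ⟨j, k⟩⟩
    obtain ⟨R, a, d⟩ := c i (fun j => G b j) (fun j => e b j ▸ (h.2 _ (ih j j.2).1).2.2.2 _ (by
      by_cases x : j.1 ∈ b <;> simp only [x]; exacts [(ih j j.2).2.2.2.2.2, (ih j j.2).2.2.2.2.1])) fun j k l => by
        rcases l.eq_or_lt with rfl | l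
        exacts [le_rfl, fun t x => (ih k k.2).2.2.1 _ ⟨j, l, rfl⟩ ((e b k).le x).1]
    exact ⟨R, a, fun t x => (ih j j.2).2.1 ((e b j).le (d j x)).1, fun _ ⟨j, k, l⟩ => l ▸ d ⟨j, k⟩⟩
  refine ⟨fun b i => (Q b i).1, fun b i => (Q b i).2, fun b i => ⟨(A b i).1, (A b i).2.1, (A b i).2.2.2.1, fun j l => ?_⟩,
    fun b b' i k => ?_⟩
  · have := e b j ▸ (A b i).2.2.1 _ ⟨j, l, rfl⟩
    exact ⟨fun t x => ⟨(A b i).2.1 x, (this x).2⟩, stem this (A b i).2.2.2.2⟩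
  have B : ∀ j, (∀ k < j, G b k = G b' k) → Q b j = Q b' j := fun j x => by
    simp only [Q]; congr 1; ext S; exact exists₂_congr fun k l => by rw [x k l]
  have : ∀ j < i, G b j = G b' j := fun j => by
    induction j using WellFoundedLT.induction with | ind j ih =>
    intro l
    rw [e, e, B j fun k x => ih k x (x.trans l), show (j ∈ b) = (j ∈ b') by simpa [l] using Set.ext_iff.1 k j]
  simp only [B i this]

end Pool.Agent.H.MP_c1fc37_lc
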