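import Pool.Agent.H.MP_c1fc37_lc.A
set_option linter.style.longLine false
namespace Pool.Agent.H.MP_c1fc37_lc
open Set Cardinal Order Function Pool.Agent.Lib.helper21.NS

lemma main {X : Type} [LinearOrder X] [WellFoundedLT X] [SuccOrder X] [NoMaxOrder X] (R : Reg X) {l : Cardinal.{0}}
    (hl : ℵ₀ ≤ l) (mk : #X = succ l) {P : Set (Set (Nd X))} (h : TF P) (c : Clo P) (bd : Bnd P) (cc : CC P) : False := by
  have sm : ∀ a : X, #(Iio a) ≤ l := fun a =>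
    lt_succ_iff.1 (((mk_le_mk_of_subset Iio_subset_Iic_self).trans_lt (R.small a)).trans_eq mk)
  have df : ∀ {δ : X} {b b' : Set (Iio δ)}, b ≠ b' → ∃ i < δ, (↑) '' b ∩ Iio i = (↑) '' b' ∩ Iio i ∧
      ¬ (i ∈ ((↑) '' b : Set X) ↔ i ∈ ((↑) '' b' : Set X)) := fun {δ b b'} n => by
    obtain ⟨i, a, d⟩ := wellFounded_lt.has_min {i | ¬ (i ∈ ((↑) '' b : Set X) ↔ i ∈ ((↑) '' b' : Set X))}
      (by_contra fun k => n (image_val_injective (Set.ext fun x => by_contra fun e => k ⟨x, by exact e⟩)))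
    refine ⟨i, by_contra fun k => a (iff_of_false (fun ⟨x, _, e⟩ => k (e ▸ x.2)) fun ⟨x, _, e⟩ => k (e ▸ x.2)),
      Set.ext fun x => and_congr_left fun k => by_contra fun e => d x e k, a⟩
  have bit : ∀ {u w : Nd X} {i : Prop}, Le (ch u i) w → (u.1.1 ∈ w.1.2 ↔ i) := fun {u w i} k => by
    have n : u.1.1 ∉ u.1.2 := fun e => lt_irrefl _ (u.2 e)
    simpa [ch, n] using (Set.ext_iff.1 k.2 u.1.1).symm
  have ln : ∀ {u : Set X → X → Nd X} {b}, (∀ i, ∀ j < i, Le (ch (u b j) (j ∈ b)) (u b i)) → ∀ i, i ≤ (u b i).1.1 :=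
    fun k _ => StrictMono.le_apply fun j i x => succ_le_iff.1 (k i j x).1
  obtain ⟨T, hT⟩ := h.1
  have e : ∀ α : X, Nonempty (Set (Iio α) ↪ X) := fun α => by
    obtain ⟨L, u, a, b⟩ := tree h c hT
    have : ∀ s t : Set (Iio α), s ≠ t → ¬ ∃ R ∈ P, R ⊆ L ((↑) '' s) α ∧ R ⊆ L ((↑) '' t) α := fun s t n ⟨R, x, y, z⟩ => by
      obtain ⟨i, j, k, m⟩ := df n
      obtain ⟨v, hv⟩ := (h.2 R x).1
      obtain ⟨w, -, -, hw⟩ := (h.2 R x).2.2.1 v hv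
      exact m ((bit (stem (y.trans ((a _ α).2.2.2 i j).1) hw)).symm.trans
        (b _ _ i k ▸ bit (stem (z.trans ((a _ α).2.2.2 i j).1) hw)))
    rw [← Cardinal.le_def, ← mk_range_eq (fun s : Set (Iio α) => L ((↑) '' s) α) fun s t k => by_contra fun n =>
      this s t n ⟨_, (a _ α).1, subset_rfl, k.le⟩]
    refine cc _ (range_subset_iff.2 fun s => (a _ α).1) ?_
    rintro _ ⟨s, rfl⟩ _ ⟨t, rfl⟩ n
    exact this s t fun k => n (by rw [k])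
  let E := fun (α : X) (s : Nd X) => (e α).some ((↑) ⁻¹' s.1.2)
  have lg : ∀ α, ∀ R ∈ P, ∃ t ∈ R, α ≤ t.1.1 := fun α R x => by
    obtain ⟨L, u, a, -⟩ := tree h c x
    exact ⟨u ∅ α, (a _ α).2.1 (a _ α).2.2.1, ln (fun i j k => ((a _ i).2.2.2 j k).2) α⟩
  have cn : ∀ α R t, α ≤ t.1.1 → ∀ s ∈ cone R t, α ≤ s.1.1 → E α s = E α t := fun α R t x s y z => by
    simp only [E]; congr 1; ext i
    rcases y.2 with k | k
    · simp [k.2, i.2.trans_le z]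
    · simp [k.2, i.2.trans_le x]
  obtain ⟨S, s1, -, z, hz⟩ := bd (fun α R ξ => ∀ s ∈ R, α ≤ s.1.1 → E α s = ξ) ⟨fun _ _ _ _ _ _ a b s x => b s (a x),
    fun α _ _ R x a b => let ⟨t, i, j⟩ := lg α R x; (a t i j).symm.trans (b t i j), fun α R x =>
      let ⟨t, i, j⟩ := lg α R x; ⟨_, (h.2 R x).2.2.2 t i, fun _ k => k.1, _, cn α R t j⟩⟩ T hT
  obtain ⟨L, u, a, b⟩ := tree h c s1
  obtain ⟨δ, d1, d2⟩ := wellFounded_lt.has_min {δ : X | l < 2 ^ #(Iio δ)} (by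
    obtain ⟨s, -, hs⟩ := le_mk_iff_exists_subset (c := l) (s := (Set.univ : Set X)).1 (by simp [mk, le_succ])
    obtain ⟨x, hx⟩ := R.bdd s (by simp [hs, mk])
    obtain ⟨y, hy⟩ := exists_gt x
    exact ⟨y, (cantor l).trans_le (power_le_power_left two_ne_zero (hs ▸ mk_le_mk_of_subset fun i k => (hx k).trans_lt hy))⟩)
  obtain ⟨γ, hγ⟩ := R.bdd (⋃ i : Iio δ, range fun s : Set (Iio i.1) => (u ((↑) '' s) i).1.1) (by
    refine ((mk_iUnion_le _).trans ((mul_le_mul' (sm δ) (ciSup_le' fun i => mk_range_le.trans ?_)).trans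
      (mul_eq_self hl).le)).trans_lt (mk ▸ lt_succ l)
    simpa using not_lt.1 fun k => d2 i k i.2)
  obtain ⟨β, hβ⟩ := exists_gt (max γ δ)
  have w : ∀ s, β ≤ (u s β).1.1 := fun s => ln (fun i j k => ((a s i).2.2.2 j k).2) β
  refine d1.not_ge (le_trans ?_ (sm (z β)))
  rw [← mk_set]
  refine mk_le_of_injective (f := fun s : Set (Iio δ) => (⟨E β (u ((↑) '' s) β), hz β _ _
    ((h.2 S s1).2.2.2 _ ((a _ β).2.1 (a _ β).2.2.1)) (fun _ k => k.1) (cn β S _ (w _))⟩ : Iio (z β))) fun s t k => ?_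
  by_contra n
  obtain ⟨i, j, x, m⟩ := df n
  have lt := j.trans (max_lt_iff.1 hβ).2
  have : (u ((↑) '' s) i).1.1 < β := lt_of_le_of_lt (hγ (mem_iUnion.2 ⟨⟨i, j⟩, (↑) ⁻¹' ((↑) '' s : Set X),
    congrArg (·.1.1) (b _ _ i (by simp [inter_comm]))⟩)) (max_lt_iff.1 hβ).1
  have y := bit ((a ((↑) '' t) β).2.2.2 i lt).2
  rw [← b _ _ i x] at y
  refine m ((bit ((a _ β).2.2.2 i lt).2).symm.trans (Iff.trans ?_ y))
  exact Set.ext_iff.1 ((e β).some.injective (congrArg Subtype.val k)) ⟨_, this⟩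

end Pool.Agent.H.MP_c1fc37_lc
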